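import Pool.Agent.Q273.MV.Stm4
import Pool.Agent.Q121.MV.Pig2

/-!
# Job LOW: integral vectors near a generic point with prescribed divisibilities, off the points
-/

set_option autoImplicit false
set_option linter.unusedSectionVars false

namespace Pool.Agent.Q2.MV

open NumberField NumberField.mixedEmbedding NumberField.InfinitePlace
open IsDedekindDomain Finset Pool.Agent.W232.VA Pool.Agent.H691R3 Height Q273.MV

variable {K : Type} [Field K] [NumberField K] {r : ℕ}

/-- the norm of an integer divisible by powers of different primes -/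
lemma norm_ge (P : Fin r → HeightOneSpectrum (𝓞 K)) (hP : Function.Injective P) (k : Fin r → ℕ)
    (J : Finset (Fin r)) (z : 𝓞 K) (hz : z ≠ 0) (h : ∀ j ∈ J, z ∈ (P j).asIdeal ^ (k j)) :
    ∑ j ∈ J, (k j : ℝ) * Real.log (Nv (P j)) ≤
      ∑ w : InfinitePlace K, (w.mult : ℝ) * Real.log (w (z : K)) := by
  classical
  have h1 : (∏ j ∈ J, (P j).asIdeal ^ (k j)) ∣ Ideal.span {z} := by
    refine Finset.prod_dvd_of_coprime ?_ ?_
    · intro i _ j _ hij
      refine IsCoprime.pow ?_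
      rw [Ideal.isCoprime_iff_sup_eq]
      exact (P i).isMaximal.coprime_of_ne (P j).isMaximal
        (fun h => hij (hP (HeightOneSpectrum.ext h)))
    · intro j hj
      rw [Ideal.dvd_span_singleton]
      exact h j hj
  have h2 := map_dvd Ideal.absNorm h1
  have h3 : Ideal.absNorm (Ideal.span {z}) ≠ 0 := by
    rw [Ne, Ideal.absNorm_eq_zero_iff, Ideal.span_singleton_eq_bot]
    exact hz
  have h4 := Nat.le_of_dvd (Nat.pos_of_ne_zero h3) h2
  have h5 : (∏ j ∈ J, Nv (P j) ^ (k j)) ≤ ∏ w : InfinitePlace K, w (z : K) ^ w.mult := by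
    rw [prod_eq_abs_norm, ← Algebra.coe_norm_int]
    rw [Ideal.absNorm_span_singleton, map_prod] at h4
    have h6 : ((∏ j ∈ J, Ideal.absNorm ((P j).asIdeal ^ (k j)) : ℕ) : ℝ) ≤
        (((Algebra.norm ℤ z).natAbs : ℕ) : ℝ) := by exact_mod_cast h4
    rw [Nat.cast_natAbs] at h6
    push_cast at h6 ⊢
    refine le_trans (le_of_eq ?_) h6
    refine Finset.prod_congr rfl fun j _ => ?_
    rw [map_pow]
    push_cast
    rfl
  have hpos : 0 < ∏ j ∈ J, Nv (P j) ^ (k j) :=
    Finset.prod_pos fun j _ => pow_pos (by linarith [two_le_Nv (P j)]) _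
  have h6 := Real.log_le_log hpos h5
  rw [Real.log_prod (fun j _ => (pow_pos (by linarith [two_le_Nv (P j)]) _).ne'),
    Real.log_prod] at h6
  · simpa only [Real.log_pow] using h6
  · intro w _
    refine pow_ne_zero _ ?_
    rw [Ne, map_eq_zero]
    exact_mod_cast hz

lemma sum_two (f : Fin (1 + 1) → 𝓞 K) : ∑ j, f j = f 0 + f 1 := Fin.sum_univ_two f

lemma prop_of_det {a a' : Fin (1 + 1) → K} (ha : a' ≠ 0) (h : a 0 * a' 1 = a 1 * a' 0) :
    ∃ c : K, a = c • a' := by
  have hall : ∀ l m, a l * a' m = a m * a' l := by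
    intro l m
    fin_cases l <;> fin_cases m
    · rfl
    · exact h
    · exact h.symm
    · rfl
  obtain ⟨m, hm⟩ := Function.ne_iff.mp ha
  have hm' : a' m ≠ 0 := hm
  refine ⟨a m / a' m, ?_⟩
  funext l
  rw [Pi.smul_apply, smul_eq_mul, div_mul_eq_mul_div, eq_div_iff hm']
  exact hall l m

/-- vectors proportional to a fixed one do not occur -/
lemma off {ξ : Fin 1 → mixedSpace K} (hξ : Gen ξ) {b : Fin r → Fin (1 + 1) → 𝓞 K}
    (hb : ∀ i, cz (b i) ≠ 0) (hbd : ∀ i l, i ≠ l → ∀ c : K, cz (b i) ≠ c • cz (b l))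
    {P : Fin r → HeightOneSpectrum (𝓞 K)} (hP : Function.Injective P)
    {δ : Fin r → ℝ} (hδ1 : ∀ i, δ i < 1) (β : Fin (1 + 1) → 𝓞 K) (hβ : β ≠ 0)
    (A B : ℝ) :
    ∃ T : ℝ, 0 ≤ T ∧ ∀ t : ℝ, T ≤ t → ∀ (x : Fin (1 + 1) → 𝓞 K) (k : Fin r → ℕ), x ≠ 0 →
      (∀ i, linZ (b i) x ∈ (P i).asIdeal ^ (k i)) →
      (∀ i, δ i * ((Module.finrank ℚ K : ℝ) * t) - A ≤ (k i : ℝ) * Real.log (Nv (P i))) →
      (∀ w : InfinitePlace K, normAtPlace w (mixedEmbedding K ((x 0 : 𝓞 K) : K) * ξ 0 -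
        mixedEmbedding K ((x 1 : 𝓞 K) : K)) ≤ Real.exp (B - (1 - ∑ i, δ i) * t)) →
      x 0 * β 1 ≠ x 1 * β 0 := by
  classical
  set d : ℝ := (Module.finrank ℚ K : ℝ) with hd
  have hdpos : 0 < d := by
    rw [hd]
    exact_mod_cast Module.finrank_pos
  -- the set of forms which do not vanish
  set J : Finset (Fin r) := Finset.univ.filter fun j => linZ (b j) β ≠ 0 with hJ
  have hlb : ∀ j (y : Fin (1 + 1) → 𝓞 K), linZ (b j) y = b j 0 * y 0 + b j 1 * y 1 :=
    fun j y => by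
      unfold linZ
      exact sum_two _
  have hβ' : β 0 ≠ 0 ∨ β 1 ≠ 0 := by
    by_contra hcon
    push Not at hcon
    apply hβ
    funext j
    fin_cases j
    · exact hcon.1
    · exact hcon.2
  have hθ : 0 < 1 - ∑ i, δ i + ∑ j ∈ J, δ j := by
    have e1 : ∑ i, δ i = ∑ j ∈ J, δ j +
        ∑ j ∈ Finset.univ.filter (fun j => ¬ linZ (b j) β ≠ 0), δ j :=
      (Finset.sum_filter_add_sum_filter_not _ _ _).symm
    have hcard : (Finset.univ.filter (fun j => ¬ linZ (b j) β ≠ 0)).card ≤ 1 := by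
      rw [Finset.card_le_one]
      intro i hi l hl
      by_contra hil
      simp only [Finset.mem_filter, Finset.mem_univ, true_and, not_not] at hi hl
      rw [hlb] at hi hl
      have hdet : b i 0 * b l 1 = b i 1 * b l 0 := by
        rcases hβ' with h0 | h0
        · apply mul_left_cancel₀ h0
          linear_combination b l 1 * hi - b i 1 * hl
        · apply mul_left_cancel₀ h0
          linear_combination b i 0 * hl - b l 0 * hi
      obtain ⟨c, hc⟩ := prop_of_det (a := cz (b i)) (a' := cz (b l)) (hb l) (by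
        have := congrArg (fun y : 𝓞 K => (y : K)) hdet
        simpa [cz] using this)
      exact hbd i l hil c hc
    have e2 : ∑ j ∈ Finset.univ.filter (fun j => ¬ linZ (b j) β ≠ 0), δ j < 1 := by
      rcases Finset.eq_empty_or_nonempty
        (Finset.univ.filter (fun j => ¬ linZ (b j) β ≠ 0)) with h | ⟨j0, hj0⟩
      · rw [h, Finset.sum_empty]
        exact one_pos
      · have h : Finset.univ.filter (fun j => ¬ linZ (b j) β ≠ 0) = {j0} :=
          Finset.eq_singleton_iff_unique_mem.mpr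
            ⟨hj0, fun i hi => Finset.card_le_one.mp hcard i hi j0 hj0⟩
        rw [h, Finset.sum_singleton]
        exact hδ1 j0
    linarith
  -- the distance of the point from the generic one
  have hgen : ∀ w : InfinitePlace K, 0 < normAtPlace w
      (mixedEmbedding K ((β 0 : 𝓞 K) : K) * ξ 0 - mixedEmbedding K ((β 1 : 𝓞 K) : K)) := by
    intro w
    refine lt_of_le_of_ne (normAtPlace_nonneg _ _) (Ne.symm ?_)
    have h := hξ (fun j => if j = 0 then -((β 1 : 𝓞 K) : K) else ((β 0 : 𝓞 K) : K)) (by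
      intro h0
      have h1 := congrFun h0 0
      have h2 := congrFun h0 1
      simp at h1 h2
      rcases hβ' with h3 | h3
      · exact h3 (by exact_mod_cast h2)
      · exact h3 (by exact_mod_cast h1)) w
    have e : linX (fun j : Fin (1 + 1) => if j = 0 then -((β 1 : 𝓞 K) : K) else
        ((β 0 : 𝓞 K) : K)) ξ =
        mixedEmbedding K ((β 0 : 𝓞 K) : K) * ξ 0 - mixedEmbedding K ((β 1 : 𝓞 K) : K) := by
      unfold linX
      simp
      ring
    rwa [e] at h
  obtain ⟨m, hm⟩ := Function.ne_iff.mp hβ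
  have hm' : β m ≠ 0 := hm
  set e : InfinitePlace K → ℝ := fun w => normAtPlace w
      (mixedEmbedding K ((β 0 : 𝓞 K) : K) * ξ 0 - mixedEmbedding K ((β 1 : 𝓞 K) : K)) with he
  set Kw : InfinitePlace K → ℝ := fun w => Real.log (w ((β m : 𝓞 K) : K)) - Real.log (e w) + B +
    ∑ j ∈ J, Real.log (w ((linZ (b j) β : 𝓞 K) : K)) with hKw
  set Q : ℝ := ∑ w : InfinitePlace K, (w.mult : ℝ) * Kw w with hQ
  set θ : ℝ := 1 - ∑ i, δ i + ∑ j ∈ J, δ j with hθdef
  refine ⟨max 0 ((Q + J.card * A) / (θ * d)) + 1, by positivity, ?_⟩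
  intro t ht x k hx hk hkA hfar hcon
  have hprop : ∀ l n, x l * β n = x n * β l := by
    intro l n
    fin_cases l <;> fin_cases n
    · rfl
    · exact hcon
    · exact hcon.symm
    · rfl
  have hxm : x m ≠ 0 := by
    intro h0
    apply hx
    funext l
    have h1 := hprop l m
    rw [h0, zero_mul] at h1
    exact (mul_eq_zero.mp h1).resolve_right hm'
  have hxmK : ((x m : 𝓞 K) : K) ≠ 0 := by exact_mod_cast hxm
  have hβmK : ((β m : 𝓞 K) : K) ≠ 0 := by exact_mod_cast hm'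
  have hlog : ∀ w : InfinitePlace K, Real.log (w ((x m : 𝓞 K) : K)) ≤
      Real.log (w ((β m : 𝓞 K) : K)) - Real.log (e w) + B - (1 - ∑ i, δ i) * t := by
    intro w
    have h1 : mixedEmbedding K ((β m : 𝓞 K) : K) * (mixedEmbedding K ((x 0 : 𝓞 K) : K) * ξ 0 -
        mixedEmbedding K ((x 1 : 𝓞 K) : K)) = mixedEmbedding K ((x m : 𝓞 K) : K) *
        (mixedEmbedding K ((β 0 : 𝓞 K) : K) * ξ 0 - mixedEmbedding K ((β 1 : 𝓞 K) : K)) := by
      have e0 : mixedEmbedding K ((x 0 : 𝓞 K) : K) * mixedEmbedding K ((β m : 𝓞 K) : K) =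
          mixedEmbedding K ((x m : 𝓞 K) : K) * mixedEmbedding K ((β 0 : 𝓞 K) : K) := by
        rw [← map_mul, ← map_mul, ← map_mul, ← map_mul]
        exact congrArg _ (congrArg _ (hprop 0 m))
      have e1 : mixedEmbedding K ((x 1 : 𝓞 K) : K) * mixedEmbedding K ((β m : 𝓞 K) : K) =
          mixedEmbedding K ((x m : 𝓞 K) : K) * mixedEmbedding K ((β 1 : 𝓞 K) : K) := by
        rw [← map_mul, ← map_mul, ← map_mul, ← map_mul]
        exact congrArg _ (congrArg _ (hprop 1 m))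
      linear_combination ξ 0 * e0 - e1
    have h2 := congrArg (normAtPlace w) h1
    rw [map_mul, map_mul, normAtPlace_apply, normAtPlace_apply] at h2
    have hw1 : 0 < w ((x m : 𝓞 K) : K) := pos_iff.mpr hxmK
    have hw2 : 0 < w ((β m : 𝓞 K) : K) := pos_iff.mpr hβmK
    have hew : 0 < e w := hgen w
    have hf : 0 < normAtPlace w (mixedEmbedding K ((x 0 : 𝓞 K) : K) * ξ 0 -
        mixedEmbedding K ((x 1 : 𝓞 K) : K)) := by
      have h3 : 0 < w ((β m : 𝓞 K) : K) * normAtPlace w (mixedEmbedding K ((x 0 : 𝓞 K) : K) * ξ 0 -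
        mixedEmbedding K ((x 1 : 𝓞 K) : K)) := by
        rw [h2]
        exact mul_pos hw1 hew
      exact (mul_pos_iff_of_pos_left hw2).mp h3
    have h3 := congrArg Real.log h2
    rw [Real.log_mul hw2.ne' hf.ne', Real.log_mul hw1.ne' hew.ne'] at h3
    have h4 := Real.log_le_log hf (hfar w)
    rw [Real.log_exp] at h4
    linarith
  set z : 𝓞 K := x m * ∏ j ∈ J, linZ (b j) β with hz
  have hJne : ∀ j ∈ J, linZ (b j) β ≠ 0 := fun j hj => (Finset.mem_filter.mp hj).2
  have hz0 : z ≠ 0 := mul_ne_zero hxm (Finset.prod_ne_zero_iff.mpr hJne)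
  have hzmem : ∀ j ∈ J, z ∈ (P j).asIdeal ^ (k j) := by
    intro j hj
    have e1 : z = linZ (b j) x * (β m * ∏ i ∈ J.erase j, linZ (b i) β) := by
      rw [hz, ← Finset.mul_prod_erase J _ hj, hlb j β, hlb j x]
      have h0 := hprop 0 m
      have h1 := hprop 1 m
      linear_combination (- (b j 0) * h0 - b j 1 * h1) * ∏ i ∈ J.erase j, linZ (b i) β
    rw [e1]
    exact Ideal.mul_mem_right _ _ (hk j)
  have hnorm := norm_ge P hP k J z hz0 hzmem
  have hwz : ∀ w : InfinitePlace K, Real.log (w ((z : 𝓞 K) : K)) ≤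
      Kw w - (1 - ∑ i, δ i) * t := by
    intro w
    have e1 : ((z : 𝓞 K) : K) = ((x m : 𝓞 K) : K) * ∏ j ∈ J, ((linZ (b j) β : 𝓞 K) : K) := by
      rw [hz]
      simp only [map_mul, map_prod]
    rw [e1, map_mul, map_prod, Real.log_mul (pos_iff.mpr hxmK).ne', Real.log_prod]
    · have := hlog w
      rw [hKw]
      simp only
      linarith
    · intro j hj
      refine (pos_iff.mpr ?_).ne'
      exact_mod_cast hJne j hj
    · refine Finset.prod_ne_zero_iff.mpr fun j hj => (pos_iff.mpr ?_).ne'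
      exact_mod_cast hJne j hj
  have hup : ∑ w : InfinitePlace K, (w.mult : ℝ) * Real.log (w ((z : 𝓞 K) : K)) ≤
      Q - (1 - ∑ i, δ i) * (d * t) := by
    have e1 : ∑ w : InfinitePlace K, (w.mult : ℝ) * Real.log (w ((z : 𝓞 K) : K)) ≤
        ∑ w : InfinitePlace K, (w.mult : ℝ) * (Kw w - (1 - ∑ i, δ i) * t) :=
      Finset.sum_le_sum fun w _ => mul_le_mul_of_nonneg_left (hwz w) (Nat.cast_nonneg _)
    have e2 : ∑ w : InfinitePlace K, (w.mult : ℝ) * (Kw w - (1 - ∑ i, δ i) * t) =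
        Q - (1 - ∑ i, δ i) * (d * t) := by
      simp only [mul_sub]
      rw [Finset.sum_sub_distrib, ← Finset.sum_mul]
      have e3 : ∑ w : InfinitePlace K, (w.mult : ℝ) = d := by
        rw [hd, ← sum_mult_eq]
        push_cast
        rfl
      rw [e3, hQ]
      ring
    linarith
  have hlow : (∑ j ∈ J, δ j) * (d * t) - J.card * A ≤
      ∑ j ∈ J, (k j : ℝ) * Real.log (Nv (P j)) := by
    have e1 : ∑ j ∈ J, (δ j * (d * t) - A) ≤ ∑ j ∈ J, (k j : ℝ) * Real.log (Nv (P j)) :=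
      Finset.sum_le_sum fun j _ => hkA j
    rw [Finset.sum_sub_distrib, ← Finset.sum_mul, Finset.sum_const, nsmul_eq_mul] at e1
    exact e1
  have hfin : θ * d * t ≤ Q + J.card * A := by
    have : θ * d * t = (1 - ∑ i, δ i) * (d * t) + (∑ j ∈ J, δ j) * (d * t) := by
      rw [hθdef]
      ring
    linarith
  have hθd : 0 < θ * d := mul_pos hθ hdpos
  have h1 : t ≤ (Q + J.card * A) / (θ * d) := by
    rw [le_div_iff₀ hθd]
    linarith
  have h2 : (Q + J.card * A) / (θ * d) ≤ max 0 ((Q + J.card * A) / (θ * d)) := le_max_right _ _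
  linarith

/-- existence of the vectors -/
lemma exist (ξ : Fin 1 → mixedSpace K) (b : Fin r → Fin (1 + 1) → 𝓞 K)
    (P : Fin r → HeightOneSpectrum (𝓞 K)) (δ : Fin r → ℝ) (hδ : ∀ i, 0 ≤ δ i) :
    ∃ C : ℝ, 1 ≤ C ∧ ∀ t : ℝ, 0 ≤ t → ∃ (x : Fin (1 + 1) → 𝓞 K) (k : Fin r → ℕ), x ≠ 0 ∧
      (∀ i, linZ (b i) x ∈ (P i).asIdeal ^ (k i)) ∧
      (∀ i, δ i * ((Module.finrank ℚ K : ℝ) * t) - Real.log (Nv (P i)) ≤
        (k i : ℝ) * Real.log (Nv (P i))) ∧
      (∀ w : InfinitePlace K, w ((x 0 : 𝓞 K) : K) ≤ C * Real.exp t) ∧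
      ∀ w : InfinitePlace K, normAtPlace w (mixedEmbedding K ((x 0 : 𝓞 K) : K) * ξ 0 -
        mixedEmbedding K ((x 1 : 𝓞 K) : K)) ≤ C * Real.exp (-((1 - ∑ i, δ i) * t)) := by
  classical
  obtain ⟨C1, hC1, hpig⟩ := Pool.Agent.Q6.MV.pig K 1 ξ
  obtain ⟨C2, hC2, hpig2⟩ := Pool.Agent.Q121.MV.pig2 K 1 ξ
  set d : ℕ := Module.finrank ℚ K with hd
  have hdpos : 0 < d := Module.finrank_pos
  have hdr : (0 : ℝ) < (d : ℝ) := by exact_mod_cast hdpos
  set Δ : ℝ := ∑ i, δ i with hΔdef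
  refine ⟨2 * C1 + C2, by linarith, fun t ht => ?_⟩
  set N : ℕ := ⌊Real.exp t⌋₊ with hN
  set k : Fin r → ℕ := fun i => ⌊δ i * (d * t) / Real.log (Nv (P i))⌋₊ with hk
  have hNle : (N : ℝ) ≤ Real.exp t := Nat.floor_le (by positivity)
  have hNlt : Real.exp t < (N : ℝ) + 1 := Nat.lt_floor_add_one _
  have hk1 : ∀ i, (k i : ℝ) * Real.log (Nv (P i)) ≤ δ i * (d * t) := by
    intro i
    have h1 : (k i : ℝ) ≤ δ i * (d * t) / Real.log (Nv (P i)) :=
      Nat.floor_le (div_nonneg (mul_nonneg (hδ i) (by positivity)) (log_Nv_pos _).le)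
    rwa [le_div_iff₀ (log_Nv_pos _)] at h1
  have hk2 : ∀ i, δ i * (d * t) - Real.log (Nv (P i)) ≤ (k i : ℝ) * Real.log (Nv (P i)) := by
    intro i
    have h1 : δ i * (d * t) / Real.log (Nv (P i)) < (k i : ℝ) + 1 := Nat.lt_floor_add_one _
    rw [div_lt_iff₀ (log_Nv_pos _)] at h1
    linarith
  have hfin : ∀ i, Finite (𝓞 K ⧸ (P i).asIdeal ^ (k i)) := fun i =>
    Ideal.finiteQuotientOfFreeOfNeBot _ (pow_ne_zero _ (P i).ne_bot)
  have hcard : (Nat.card (∀ i, 𝓞 K ⧸ (P i).asIdeal ^ (k i)) : ℝ) ≤ Real.exp (Δ * (d * t)) := by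
    rw [Nat.card_pi]
    push_cast
    rw [Finset.prod_congr rfl fun i _ => card_quot (P i) (k i), ← Real.exp_sum]
    refine Real.exp_le_exp.2 ?_
    rw [hΔdef, Finset.sum_mul]
    exact Finset.sum_le_sum fun i _ => hk1 i
  rcases le_total Δ 1 with hΔ | hΔ
  · set E : ℝ := Real.exp ((1 - Δ) * t) with hE
    have hE0 : 0 < E := Real.exp_pos _
    have hE1 : 1 ≤ E := by
      rw [hE]
      refine Real.one_le_exp ?_
      exact mul_nonneg (by linarith) ht
    set M : ℕ := ⌊E⌋₊ with hM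
    have hM1 : 1 ≤ M := by
      rw [hM]
      exact Nat.le_floor (by exact_mod_cast hE1)
    have hMr : (1 : ℝ) ≤ M := by exact_mod_cast hM1
    have hMpow : ((M : ℝ)) ^ (d * 1) ≤ Real.exp ((1 - Δ) * (d * t)) := by
      have h1 : (M : ℝ) ≤ E := Nat.floor_le (by positivity)
      calc ((M : ℝ)) ^ (d * 1) ≤ E ^ (d * 1) := pow_le_pow_left₀ (by positivity) h1 _
        _ = Real.exp ((1 - Δ) * (d * t)) := by
            rw [hE, ← Real.exp_nat_mul]
            congr 1
            push_cast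
            ring
    have hcount : M ^ (d * 1) * Nat.card (∀ i, 𝓞 K ⧸ (P i).asIdeal ^ (k i)) < (N + 1) ^ d := by
      have h1 : ((M : ℝ)) ^ (d * 1) * (Nat.card (∀ i, 𝓞 K ⧸ (P i).asIdeal ^ (k i)) : ℝ) <
          ((N : ℝ) + 1) ^ d := by
        calc ((M : ℝ)) ^ (d * 1) * (Nat.card (∀ i, 𝓞 K ⧸ (P i).asIdeal ^ (k i)) : ℝ)
            ≤ Real.exp ((1 - Δ) * (d * t)) * Real.exp (Δ * (d * t)) := by gcongr
          _ = Real.exp t ^ d := by
              rw [← Real.exp_add, ← Real.exp_nat_mul]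
              congr 1
              ring
          _ < ((N : ℝ) + 1) ^ d := by
              refine pow_lt_pow_left₀ (Nat.lt_floor_add_one _) (by positivity) hdpos.ne'
      exact_mod_cast h1
    obtain ⟨x, hx0, hφ, hxX, hxY⟩ := hpig (∀ i, 𝓞 K ⧸ (P i).asIdeal ^ (k i))
      (phi b fun i => (P i).asIdeal ^ (k i)) N M hM1 hcount
    refine ⟨x, k, fun h => hx0 (by rw [h]; rfl), fun i => ?_, hk2, fun w => ?_, fun w => ?_⟩
    · exact Ideal.Quotient.eq_zero_iff_mem.1 (congrFun hφ i)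
    · have h1 := hxX w
      have h2 : C1 * (N : ℝ) ≤ (2 * C1 + C2) * Real.exp t :=
        mul_le_mul (by linarith) hNle (Nat.cast_nonneg _) (by linarith)
      linarith
    · have h1 : normAtPlace w (mixedEmbedding K ((x 0 : 𝓞 K) : K) * ξ 0 -
        mixedEmbedding K ((x 1 : 𝓞 K) : K)) ≤ C1 / M := hxY w 0
      have h2 : E / 2 ≤ M := by
        have := Nat.lt_floor_add_one E
        rw [← hM] at this
        linarith
      have h3 : C1 / M ≤ C1 / (E / 2) := div_le_div_of_nonneg_left (by linarith) (by positivity) h2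
      have h4 : C1 / (E / 2) = 2 * C1 * Real.exp (-((1 - Δ) * t)) := by
        rw [Real.exp_neg, ← hE]
        field_simp
      have h5 : 2 * C1 * Real.exp (-((1 - Δ) * t)) ≤ (2 * C1 + C2) * Real.exp (-((1 - Δ) * t)) :=
        mul_le_mul_of_nonneg_right (by linarith) (Real.exp_pos _).le
      linarith
  · set E : ℝ := Real.exp (-((1 - Δ) * t)) with hE
    have hE0 : 0 < E := Real.exp_pos _
    have hE1 : 1 ≤ E := by
      rw [hE]
      refine Real.one_le_exp ?_
      have := mul_nonneg (sub_nonneg.mpr hΔ) ht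
      linarith
    set L : ℕ := ⌊E⌋₊ with hL
    have hL1 : 1 ≤ L := by
      rw [hL]
      exact Nat.le_floor (by exact_mod_cast hE1)
    have hLle : (L : ℝ) ≤ E := Nat.floor_le hE0.le
    have hLlt : E < (L : ℝ) + 1 := Nat.lt_floor_add_one _
    have hcount : Nat.card (∀ i, 𝓞 K ⧸ (P i).asIdeal ^ (k i)) < (N + 1) ^ d * (L + 1) ^ (d * 1) := by
      have h1 : (Nat.card (∀ i, 𝓞 K ⧸ (P i).asIdeal ^ (k i)) : ℝ) <
          ((N : ℝ) + 1) ^ d * ((L : ℝ) + 1) ^ (d * 1) := by
        calc (Nat.card (∀ i, 𝓞 K ⧸ (P i).asIdeal ^ (k i)) : ℝ)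
            ≤ Real.exp (Δ * (d * t)) := hcard
          _ = Real.exp t ^ d * E ^ (d * 1) := by
              rw [hE, ← Real.exp_nat_mul, ← Real.exp_nat_mul, ← Real.exp_add]
              congr 1
              push_cast
              ring
          _ < ((N : ℝ) + 1) ^ d * ((L : ℝ) + 1) ^ (d * 1) := by
              refine mul_lt_mul'' (pow_lt_pow_left₀ hNlt (by positivity) hdpos.ne')
                (pow_lt_pow_left₀ hLlt (by positivity) (by omega)) (by positivity) (by positivity)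
      exact_mod_cast h1
    obtain ⟨x, hx0, hφ, hxX, hxY⟩ := hpig2 (∀ i, 𝓞 K ⧸ (P i).asIdeal ^ (k i))
      (phi b fun i => (P i).asIdeal ^ (k i)) N L hL1 hcount
    refine ⟨x, k, hx0, fun i => ?_, hk2, fun w => ?_, fun w => ?_⟩
    · exact Ideal.Quotient.eq_zero_iff_mem.1 (congrFun hφ i)
    · have h1 := hxX w
      have h2 : C2 * (N : ℝ) ≤ (2 * C1 + C2) * Real.exp t :=
        mul_le_mul (by linarith) hNle (Nat.cast_nonneg _) (by linarith)
      linarith
    · have h1 : normAtPlace w (mixedEmbedding K ((x 0 : 𝓞 K) : K) * ξ 0 -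
        mixedEmbedding K ((x 1 : 𝓞 K) : K)) ≤ C2 * L := hxY w 0
      have h2 : C2 * (L : ℝ) ≤ (2 * C1 + C2) * E :=
        mul_le_mul (by linarith) hLle (Nat.cast_nonneg _) (by linarith)
      linarith

/-- job LOW -/
theorem low : S_LOW := by
  intro K _ _ ξ hξ r b hb hbd P hP δ hδ0 hδ1 _
  classical
  obtain ⟨C, hC, hex⟩ := exist ξ b P δ hδ0
  have hA : ∀ i, Real.log (Nv (P i)) ≤ ∑ i, Real.log (Nv (P i)) := fun i =>
    Finset.single_le_sum (f := fun i => Real.log (Nv (P i))) (fun i _ => (log_Nv_pos _).le)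
      (Finset.mem_univ i)
  set A : ℝ := ∑ i, Real.log (Nv (P i)) with hAdef
  have hA0 : 0 ≤ A := Finset.sum_nonneg fun i _ => (log_Nv_pos _).le
  set B : ℝ := Real.log C with hB
  have hB0 : 0 ≤ B := Real.log_nonneg hC
  have hCB : C = Real.exp B := (Real.exp_log (by linarith)).symm
  -- the vectors which must be avoided
  have hβ0 : (fun j : Fin (1 + 1) => if j = 0 then (0 : 𝓞 K) else 1) ≠ 0 := by
    intro h
    have := congrFun h 1
    simp at this
  obtain ⟨T0, hT0, h0⟩ := off hξ hb hbd hP hδ1 _ hβ0 A B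
  have hβi : ∀ i, (fun j : Fin (1 + 1) => if j = 0 then b i 1 else - b i 0) ≠ 0 := by
    intro i h
    apply hb i
    have h1 := congrFun h 0
    have h2 := congrFun h 1
    simp at h1 h2
    funext j
    fin_cases j
    · show ((b i 0 : 𝓞 K) : K) = 0
      rw [h2]
      simp
    · show ((b i 1 : 𝓞 K) : K) = 0
      rw [h1]
      simp
  choose T hT hTi using fun i => off hξ hb hbd hP hδ1 _ (hβi i) A B
  have hTsum : 0 ≤ ∑ i, T i := Finset.sum_nonneg fun i _ => hT i
  refine ⟨A + B + T0 + ∑ i, T i, by positivity, ?_⟩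
  intro t ht
  have ht0 : 0 ≤ t := by linarith
  obtain ⟨x, k, hx, hl, hk, hX, hY⟩ := hex t ht0
  have hk' : ∀ i, δ i * ((Module.finrank ℚ K : ℝ) * t) - A ≤ (k i : ℝ) * Real.log (Nv (P i)) :=
    fun i => by
      have h1 := hk i
      have h2 := hA i
      linarith
  have hY' : ∀ w : InfinitePlace K, normAtPlace w (mixedEmbedding K ((x 0 : 𝓞 K) : K) * ξ 0 -
        mixedEmbedding K ((x 1 : 𝓞 K) : K)) ≤ Real.exp (B - (1 - ∑ i, δ i) * t) := by
    intro w
    refine (hY w).trans (le_of_eq ?_)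
    rw [hCB, ← Real.exp_add]
    congr 1
  refine ⟨x, k, ?_, ?_, hl, ?_, ?_, ?_⟩
  · have h1 := h0 t (by linarith) x k hx hl hk' hY'
    intro h
    apply h1
    simp [h]
  · intro i
    have hTle : T i ≤ ∑ i, T i :=
      Finset.single_le_sum (f := T) (fun i _ => hT i) (Finset.mem_univ i)
    have h1 := hTi i t (by linarith) x k hx hl hk' hY'
    rw [← linZ_cz]
    intro h
    apply h1
    have h2 : linZ (b i) x = 0 := by exact_mod_cast h
    have h3 : linZ (b i) x = b i 0 * x 0 + b i 1 * x 1 := by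
      unfold linZ
      exact sum_two _
    rw [h3] at h2
    simp
    linear_combination - h2
  · intro i
    have := hk' i
    linarith
  · intro w
    refine (hX w).trans ?_
    rw [hCB, ← Real.exp_add]
    exact Real.exp_le_exp.mpr (by linarith)
  · intro w
    refine (hY' w).trans ?_
    exact Real.exp_le_exp.mpr (by linarith)

end Pool.Agent.Q2.MV
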